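import Pool.Agent.R555.BT4

/-!
# Bradley-Terry dimension is easily `L₁`-testable

For every `d ≥ 2` the property of having Bradley-Terry dimension exactly `d` has a one-sided,
non-adaptive tester whose number of queries is polynomial in `1 / ε`.

For large `n` the tester picks `poly(1 / ε)` random vertices, queries all the pairs of them and
accepts if the matrix on them is an average of `d` Bradley-Terry matrices. Suppose that the matrix
`P` on `n` vertices is accepted with probability more than `1/3`.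

* The function `x ↦ a x / (a x + a y)` is monotone in `a x`, so for a sample `Y` the `L₁`-distance
  of two rows of a Bradley-Terry matrix on the columns `Y` is the difference of the two averages.
  So, if the matrix is representable on a sample, all but `(k + 1) ^ d` of the sample points have
  rows which are within `1 / k` of the row of another sample point. Hence there are
  `(k + 1) ^ d * k` vertices such that the rows of almost all the vertices are close to one of
  their rows, and almost all the vertices can be partitioned into blocks of the same size such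
  that rows in a block are close.
* Random representatives of the blocks are, with good probability, a part of a sample on which the
  matrix is representable (a random rotation of every block moves a sample which hits all the
  blocks to random representatives). A representation on the representatives, extended to the
  blocks, is close to `P`.
-/

set_option autoImplicit false

namespace Pool.Agent.Results.MP_4530c2_lc.EasilyTestable

open Finset Pool.Agent.R555.Iid Pool.Agent.R555.BT

/-- A tournament: every edge of the complete graph on `n` vertices is oriented. -/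
structure Tournament (n : ℕ) where
  /-- the edge is oriented from the first vertex to the second -/
  arc : Fin n → Fin n → Prop
  irrefl : ∀ x, ¬ arc x x
  asymm : ∀ x y, arc x y → ¬ arc y x
  total : ∀ x y, x ≠ y → arc x y ∨ arc y x

/-- `w` gives a weight in `[0, 1]` to every arc of the tournament. (Only the values of `w` at the
arcs matter.) -/
def IsWeight {n : ℕ} (K : Tournament n) (w : Fin n → Fin n → ℝ) : Prop :=
  ∀ x y, K.arc x y → 0 ≤ w x y ∧ w x y ≤ 1

open Classical in
/-- The matrix of `(K, w)`. (Its values at the pairs `(x, x)` are irrelevant.) -/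
noncomputable def mat {n : ℕ} (K : Tournament n) (w : Fin n → Fin n → ℝ) (x y : Fin n) : ℝ :=
  if K.arc x y then w x y else 1 - w y x

/-- There are `d` positive functions `a i` whose Bradley-Terry matrices have the average `p`. -/
def Rep {n : ℕ} (d : ℕ) (p : Fin n → Fin n → ℝ) : Prop :=
  ∃ a : Fin d → Fin n → ℝ, (∀ i x, 0 < a i x) ∧
    ∀ x y, x ≠ y → p x y = (1 / d) * ∑ i, a i x / (a i x + a i y)

/-- The property `P_d`: `(K, w)` is a stochastic tournament of Bradley-Terry dimension `d`. -/
def InP {n : ℕ} (d : ℕ) (K : Tournament n) (w : Fin n → Fin n → ℝ) : Prop :=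
  IsWeight K w ∧ Rep d (mat K w) ∧ ¬ Rep (d - 1) (mat K w)

open Classical in
/-- The distance of `(K, w)` and `(K, w')`, the sum of `|w e - w' e|` over the arcs `e`. -/
noncomputable def dist {n : ℕ} (K : Tournament n) (w w' : Fin n → Fin n → ℝ) : ℝ :=
  ∑ x, ∑ y, if K.arc x y then |w x y - w' x y| else 0

/-- `(K, w)` is `ε`-far from `P_d`. -/
def Far {n : ℕ} (d : ℕ) (ε : ℝ) (K : Tournament n) (w : Fin n → Fin n → ℝ) : Prop :=
  ∀ w', InP d K w' → ε * (n : ℝ) ^ 2 ≤ dist K w w'

/-- A non-adaptive tester with at most `q` queries: it picks a uniformly random seed `ω`, queries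
the entries of the matrix at the pairs `pairs ω`, and accepts or rejects depending on the answers. -/
structure Tester (n q : ℕ) where
  Ω : Type
  fintype : Fintype Ω
  nonempty : Nonempty Ω
  pairs : Ω → Finset (Fin n × Fin n)
  card_le : ∀ ω, #(pairs ω) ≤ q
  ne : ∀ ω, ∀ z ∈ pairs ω, z.1 ≠ z.2
  accept : Ω → (Fin n → Fin n → ℝ) → Prop
  congr : ∀ ω p p', (∀ z ∈ pairs ω, p z.1 z.2 = p' z.1 z.2) → (accept ω p ↔ accept ω p')

open Classical in
/-- The probability that the tester accepts the matrix `p`. -/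
noncomputable def Tester.acceptProb {n q : ℕ} (T : Tester n q) (p : Fin n → Fin n → ℝ) : ℝ :=
  letI := T.fintype
  (#{ω | T.accept ω p} : ℝ) / Fintype.card T.Ω

/-- `T` is a one-sided `ε`-tester for `P_d`. -/
def Tester.OneSided {n q : ℕ} (T : Tester n q) (d : ℕ) (ε : ℝ) : Prop :=
  ∀ (K : Tournament n) (w : Fin n → Fin n → ℝ), IsWeight K w →
    (InP d K w → T.acceptProb (mat K w) = 1) ∧
      (Far d ε K w → T.acceptProb (mat K w) ≤ 1 / 3)

section

variable {n : ℕ}

lemma rep_congr {d : ℕ} {p p' : Fin n → Fin n → ℝ} (h : ∀ x y, x ≠ y → p x y = p' x y) :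
    Rep d p ↔ Rep d p' := by
  constructor
  · rintro ⟨a, ha, h1⟩
    exact ⟨a, ha, fun x y hxy => by rw [← h x y hxy, h1 x y hxy]⟩
  · rintro ⟨a, ha, h1⟩
    exact ⟨a, ha, fun x y hxy => by rw [h x y hxy, h1 x y hxy]⟩

lemma good_congr {d : ℕ} {p p' : Fin n → Fin n → ℝ} {A : Set (Fin n)}
    (h : ∀ x ∈ A, ∀ y ∈ A, x ≠ y → p x y = p' x y) : Good d p A ↔ Good d p' A := by
  constructor
  · rintro ⟨a, ha, h1⟩
    exact ⟨a, ha, fun x hx y hy hxy => by rw [← h x hx y hy hxy, h1 x hx y hy hxy]⟩
  · rintro ⟨a, ha, h1⟩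
    exact ⟨a, ha, fun x hx y hy hxy => by rw [h x hx y hy hxy, h1 x hx y hy hxy]⟩

/-- the tester which rejects everything -/
def rejectAll (n q : ℕ) : Tester n q where
  Ω := Unit
  fintype := inferInstance
  nonempty := inferInstance
  pairs := fun _ => ∅
  card_le := fun _ => by simp
  ne := fun _ z hz => by simp at hz
  accept := fun _ _ => False
  congr := fun _ _ _ _ => Iff.rfl

/-- the tester which queries everything -/
def queryAll (n q d : ℕ) (h : n ^ 2 ≤ q) : Tester n q where
  Ω := Unit
  fintype := inferInstance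
  nonempty := inferInstance
  pairs := fun _ => univ.filter fun z => z.1 ≠ z.2
  card_le := fun _ => by
    refine (card_filter_le _ _).trans ?_
    rw [card_univ, Fintype.card_prod, Fintype.card_fin]
    linarith [sq n]
  ne := fun _ z hz => (mem_filter.1 hz).2
  accept := fun _ p => Rep d p ∧ ¬ Rep (d - 1) p
  congr := fun _ p p' h => by
    have h1 : ∀ x y, x ≠ y → p x y = p' x y := fun x y hxy => h (x, y) (by simpa using hxy)
    rw [rep_congr h1, rep_congr h1]

/-- the tester which queries the pairs of a random sample -/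
def sampleTester (n q d N : ℕ) (hn : 1 ≤ n) (h : N ^ 2 ≤ q) : Tester n q where
  Ω := Fin N → Fin n
  fintype := inferInstance
  nonempty := ⟨fun _ => ⟨0, by omega⟩⟩
  pairs := fun x => ((univ.image x) ×ˢ (univ.image x)).filter fun z => z.1 ≠ z.2
  card_le := fun x => by
    refine (card_filter_le _ _).trans ?_
    rw [card_product]
    have h1 : #(univ.image x) ≤ N := card_image_le.trans (by simp)
    calc #(univ.image x) * #(univ.image x) ≤ N * N := Nat.mul_le_mul h1 h1
      _ ≤ q := by linarith [sq N]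
  ne := fun _ z hz => (mem_filter.1 hz).2
  accept := fun x p => Good d p (Set.range x)
  congr := fun x p p' h => good_congr (by
    rintro _ ⟨i, rfl⟩ _ ⟨j, rfl⟩ hij
    exact h (x i, x j) (by simp [hij]))

end

lemma not_inP_zero {d : ℕ} (K : Tournament 0) (w : Fin 0 → Fin 0 → ℝ) : ¬ InP d K w := by
  rintro ⟨-, -, h⟩
  exact h ⟨fun _ _ => 1, fun _ _ => one_pos, fun x => x.elim0⟩

lemma queryAll_oneSided {n q d : ℕ} (h : n ^ 2 ≤ q) {ε : ℝ} (hε : 0 < ε) :
    (queryAll n q d h).OneSided d ε := by
  classical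
  intro K w hw
  constructor
  · intro hP
    unfold Tester.acceptProb queryAll
    simp [hP.2.1, hP.2.2]
  · intro hfar
    have hnot : ¬ (Rep d (mat K w) ∧ ¬ Rep (d - 1) (mat K w)) := by
      intro hrep
      have hP : InP d K w := ⟨hw, hrep⟩
      have h1 := hfar w hP
      have h2 : dist K w w = 0 := by
        unfold dist
        refine sum_eq_zero fun x _ => sum_eq_zero fun y _ => ?_
        simp
      rw [h2] at h1
      rcases Nat.eq_zero_or_pos n with hn | hn
      · subst hn
        exact not_inP_zero K w hP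
      · have : 0 < ε * (n : ℝ) ^ 2 := by positivity
        linarith
    unfold Tester.acceptProb queryAll
    simp [hnot]

open Classical in
/-- The acceptance probability of the tester. -/
lemma sampleTester_prob {n q d N : ℕ} (hn : 1 ≤ n) (h : N ^ 2 ≤ q) (p : Fin n → Fin n → ℝ) :
    (sampleTester n q d N hn h).acceptProb p = Ex (fun _ => 1 / (n : ℝ)) (Fin N)
        (fun x => if Good d p (Set.range x) then (1 : ℝ) else 0) := by
  unfold Tester.acceptProb Ex
  simp only [wt_const, ← mul_sum, Fintype.card_fin]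
  rw [sum_ite, sum_const_zero, add_zero, sum_const, nsmul_eq_mul, mul_one]
  have h1 : (@Fintype.card (sampleTester n q d N hn h).Ω (sampleTester n q d N hn h).fintype : ℝ) =
      (n : ℝ) ^ N := by
    have : Fintype.card (Fin N → Fin n) = n ^ N := by simp
    exact_mod_cast this
  rw [h1, one_div, inv_pow, mul_comm, ← div_eq_mul_inv]
  congr 3

/-- the matrix with the diagonal entries -/
noncomputable def full {n : ℕ} (K : Tournament n) (w : Fin n → Fin n → ℝ) (x y : Fin n) : ℝ :=
  if x = y then 1 / 2 else mat K w x y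

lemma full_mat {n : ℕ} {K : Tournament n} {w : Fin n → Fin n → ℝ} (hw : IsWeight K w) :
    Mat (full K w) where
  diag := fun x => by simp [full]
  anti := fun x y => by
    unfold full
    by_cases hxy : x = y
    · subst hxy
      norm_num
    · rw [if_neg hxy, if_neg (Ne.symm hxy)]
      unfold mat
      rcases K.total x y hxy with h | h
      · rw [if_pos h, if_neg (K.asymm _ _ h)]
        ring
      · rw [if_pos h, if_neg (K.asymm _ _ h)]
        ring
  nonneg := fun x y => by
    unfold full
    split_ifs with hxy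
    · norm_num
    · unfold mat
      rcases K.total x y hxy with h | h
      · rw [if_pos h]
        exact (hw x y h).1
      · rw [if_neg (K.asymm _ _ h)]
        have := (hw y x h).2
        linarith

lemma good_full {n d : ℕ} {K : Tournament n} {w : Fin n → Fin n → ℝ} (A : Set (Fin n)) :
    Good d (full K w) A ↔ Good d (mat K w) A :=
  good_congr fun x _ y _ hxy => by simp [full, hxy]

lemma mat_avg {n d : ℕ} (hd : 1 ≤ d) (K : Tournament n) {a : Fin d → Fin n → ℝ}
    (ha : ∀ i x, 0 < a i x) (x y : Fin n) (_ : x ≠ y) :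
    mat K (avg d a) x y = avg d a x y := by
  unfold mat
  split_ifs with h
  · rfl
  · have := avg_anti hd ha x y
    linarith

/-- If the matrix is close to an average then it is not far from `P_d`. -/
lemma not_far {n d k m₀ : ℕ} (hd : 2 ≤ d) {ε : ℝ} (hε : 0 < ε) (hk : 42 / ε ≤ k)
    (hn : k * (m₀ + 1) ≤ n) (hk1 : 1 ≤ k) {a₀ : Fin d → Fin m₀ → ℝ} (ha₀ : ∀ i x, 0 < a₀ i x)
    {p₀ : Fin m₀ → Fin m₀ → ℝ} (hp₀ : ∀ x y, x ≠ y → p₀ x y = avg d a₀ x y)
    (hrep : ¬ Rep (d - 1) p₀) {K : Tournament n} {w : Fin n → Fin n → ℝ} (hw : IsWeight K w)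
    {a : Fin d → Fin n → ℝ} (ha : ∀ i x, 0 < a i x)
    (hsum : ∑ x, ∑ y, |full K w x y - avg d a x y| ≤ 21 / k * (n : ℝ) ^ 2) : ¬ Far d ε K w := by
  classical
  intro hfar
  have hk0 : (0 : ℝ) < k := by exact_mod_cast hk1
  have hm₀n : m₀ ≤ n := by nlinarith
  have hn1 : 1 ≤ n := by nlinarith
  have hn0 : (0 : ℝ) < n := by exact_mod_cast hn1
  let a' : Fin d → Fin n → ℝ := fun i x => if h : x.1 < m₀ then a₀ i ⟨x.1, h⟩ else a i x
  have ha' : ∀ i x, 0 < a' i x := by
    intro i x
    simp only [a']
    split_ifs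
    · exact ha₀ _ _
    · exact ha _ _
  have hP : InP d K (avg d a') := by
    refine ⟨?_, ?_, ?_⟩
    · intro x y _
      have h1 := avg_nonneg ha' x y
      have h2 := avg_nonneg ha' y x
      have h3 := avg_anti (by omega) ha' x y
      constructor <;> linarith
    · exact ⟨a', ha', fun x y hxy => by rw [mat_avg (by omega) K ha' x y hxy]; rfl⟩
    · rintro ⟨b, hb, hb2⟩
      refine hrep ⟨fun i x => b i (Fin.castLE hm₀n x), fun i x => hb _ _, fun x y hxy => ?_⟩
      have hne : Fin.castLE hm₀n x ≠ Fin.castLE hm₀n y :=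
        fun h => hxy (Fin.castLE_injective hm₀n h)
      have h1 := hb2 _ _ hne
      rw [mat_avg (by omega) K ha' _ _ hne] at h1
      rw [hp₀ x y hxy, ← h1]
      unfold avg
      have h2 : ∀ i (z : Fin m₀), a' i (Fin.castLE hm₀n z) = a₀ i z := by
        intro i z
        simp only [a', Fin.val_castLE]
        rw [dif_pos z.2]
      simp only [h2]
  have h1 := hfar _ hP
  have hM := full_mat hw
  have hterm : ∀ x y, (if K.arc x y then |w x y - avg d a' x y| else 0) ≤
      |full K w x y - avg d a x y| + ((if x.1 < m₀ then 1 else 0) + (if y.1 < m₀ then 1 else 0)) := by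
    intro x y
    by_cases harc : K.arc x y
    · rw [if_pos harc]
      have hxy : x ≠ y := by
        rintro rfl
        exact K.irrefl x harc
      have hw1 : w x y = full K w x y := by
        unfold full mat
        rw [if_neg hxy, if_pos harc]
      rw [hw1]
      by_cases hx : x.1 < m₀ ∨ y.1 < m₀
      · have h2 : |full K w x y - avg d a' x y| ≤ 1 := by
          have e1 := hM.nonneg x y
          have e2 := hM.le_one x y
          have e3 := avg_nonneg ha' x y
          have e4 := avg_nonneg ha' y x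
          have e5 := avg_anti (by omega) ha' x y
          rw [abs_le]
          constructor <;> linarith
        have h3 := abs_nonneg (full K w x y - avg d a x y)
        rcases hx with hx | hx
        · rw [if_pos hx]
          have : (0 : ℝ) ≤ if y.1 < m₀ then 1 else 0 := by split_ifs <;> norm_num
          linarith
        · rw [if_pos hx]
          have : (0 : ℝ) ≤ if x.1 < m₀ then 1 else 0 := by split_ifs <;> norm_num
          linarith
      · push Not at hx
        rw [if_neg (by omega), if_neg (by omega), add_zero, add_zero]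
        have h2 : avg d a' x y = avg d a x y := by
          unfold avg
          have e1 : ∀ i, a' i x = a i x := fun i => by
            simp only [a']
            rw [dif_neg (by omega)]
          have e2 : ∀ i, a' i y = a i y := fun i => by
            simp only [a']
            rw [dif_neg (by omega)]
          simp only [e1, e2]
        rw [h2]
    · rw [if_neg harc]
      have h3 := abs_nonneg (full K w x y - avg d a x y)
      have e1 : (0 : ℝ) ≤ if y.1 < m₀ then 1 else 0 := by split_ifs <;> norm_num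
      have e2 : (0 : ℝ) ≤ if x.1 < m₀ then 1 else 0 := by split_ifs <;> norm_num
      linarith
  have hcount : ∑ x : Fin n, (if x.1 < m₀ then (1 : ℝ) else 0) ≤ m₀ := by
    rw [sum_ite, sum_const_zero, add_zero, sum_const, nsmul_eq_mul, mul_one]
    have h2 : #{x : Fin n | x.1 < m₀} ≤ #(range m₀) := by
      refine card_le_card_of_injOn (fun x => x.1) ?_ ?_
      · intro x hx
        simp only [coe_filter, mem_univ, true_and, Set.mem_ofPred_eq] at hx
        simpa using hx
      · intro x _ y _ h
        exact Fin.ext h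
    rw [card_range] at h2
    exact_mod_cast h2
  have h2 : dist K w (avg d a') ≤ 21 / k * (n : ℝ) ^ 2 + 2 * (m₀ * n) := by
    unfold dist
    calc _ ≤ ∑ x : Fin n, ∑ y : Fin n, (|full K w x y - avg d a x y| +
          ((if x.1 < m₀ then 1 else 0) + (if y.1 < m₀ then 1 else 0))) :=
          sum_le_sum fun x _ => sum_le_sum fun y _ => hterm x y
      _ = ∑ x, ∑ y, |full K w x y - avg d a x y| +
          (n * ∑ x : Fin n, (if x.1 < m₀ then (1 : ℝ) else 0) +
            n * ∑ y : Fin n, (if y.1 < m₀ then (1 : ℝ) else 0)) := by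
          simp only [sum_add_distrib, sum_const, card_univ, Fintype.card_fin, nsmul_eq_mul, mul_sum]
      _ ≤ 21 / k * (n : ℝ) ^ 2 + (n * m₀ + n * m₀) :=
          add_le_add hsum (add_le_add (mul_le_mul_of_nonneg_left hcount hn0.le)
            (mul_le_mul_of_nonneg_left hcount hn0.le))
      _ = _ := by ring
  have h3 : 21 / (k : ℝ) ≤ ε / 2 := by
    rw [div_le_iff₀ hε] at hk
    rw [div_le_iff₀ hk0]
    linarith
  have h4 : 4 * (m₀ : ℝ) < ε * n := by
    have e1 : ((k * (m₀ + 1) : ℕ) : ℝ) ≤ n := by exact_mod_cast hn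
    push_cast at e1
    rw [div_le_iff₀ hε] at hk
    have e2 : (k : ℝ) * ε * (m₀ + 1) ≤ ε * n := by nlinarith
    have e3 : 42 * ((m₀ : ℝ) + 1) ≤ k * ε * (m₀ + 1) :=
      mul_le_mul_of_nonneg_right hk (by positivity)
    have e4 : (0 : ℝ) ≤ m₀ := by positivity
    linarith
  have h5 : 21 / (k : ℝ) * (n : ℝ) ^ 2 ≤ ε / 2 * (n : ℝ) ^ 2 :=
    mul_le_mul_of_nonneg_right h3 (by positivity)
  have h6 : 2 * ((m₀ : ℝ) * n) < ε / 2 * (n : ℝ) ^ 2 := by nlinarith
  linarith

/-- the number of queries -/
lemma queries_le {d k m₀ : ℕ} {ε : ℝ} (hkle : (k : ℝ) + 1 ≤ 42 * (1 + 1 / ε)) :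
    (((k * M0 d k * (m₀ + 1) + 2 * k * NN d k) ^ 2 : ℕ) : ℝ) ≤
      (((m₀ + 13) ^ 2 * 42 ^ (4 * d + 16) : ℕ) : ℝ) * (1 + 1 / ε) ^ (4 * d + 16) := by
  have h1 : k * M0 d k * (m₀ + 1) ≤ (m₀ + 1) * (k + 1) ^ (2 * d + 8) := by
    have e1 : M0 d k ≤ (k + 1) ^ (2 * d + 7) := by
      unfold M0
      calc (k + 1) ^ d * k ≤ (k + 1) ^ d * (k + 1) := Nat.mul_le_mul_left _ (by omega)
        _ = (k + 1) ^ (d + 1) := by ring
        _ ≤ (k + 1) ^ (2 * d + 7) := Nat.pow_le_pow_right (by omega) (by omega)
    calc k * M0 d k * (m₀ + 1) ≤ (k + 1) * (k + 1) ^ (2 * d + 7) * (m₀ + 1) :=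
          Nat.mul_le_mul_right _ (Nat.mul_le_mul (by omega) e1)
      _ = (m₀ + 1) * (k + 1) ^ (2 * d + 8) := by ring
  have h2 : 2 * k * NN d k ≤ 12 * (k + 1) ^ (2 * d + 8) := by
    calc 2 * k * NN d k ≤ 2 * (k + 1) * (6 * (k + 1) ^ (2 * d + 7)) :=
          Nat.mul_le_mul (Nat.mul_le_mul_left _ (by omega)) (NN_le d k)
      _ = 12 * (k + 1) ^ (2 * d + 8) := by ring
  have h3 : (k * M0 d k * (m₀ + 1) + 2 * k * NN d k) ^ 2 ≤
      (m₀ + 13) ^ 2 * (k + 1) ^ (4 * d + 16) := by
    calc (k * M0 d k * (m₀ + 1) + 2 * k * NN d k) ^ 2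
        ≤ ((m₀ + 1) * (k + 1) ^ (2 * d + 8) + 12 * (k + 1) ^ (2 * d + 8)) ^ 2 :=
          Nat.pow_le_pow_left (add_le_add h1 h2) 2
      _ = (m₀ + 13) ^ 2 * (k + 1) ^ (4 * d + 16) := by ring
  generalize 4 * d + 16 = E at h3 ⊢
  generalize (k * M0 d k * (m₀ + 1) + 2 * k * NN d k) ^ 2 = q at h3 ⊢
  have h4 : (((m₀ + 13) ^ 2 * (k + 1) ^ E : ℕ) : ℝ) =
      ((m₀ : ℝ) + 13) ^ 2 * ((k : ℝ) + 1) ^ E := by push_cast; rfl
  have h5 : (((m₀ + 13) ^ 2 * 42 ^ E : ℕ) : ℝ) =
      ((m₀ : ℝ) + 13) ^ 2 * (42 : ℝ) ^ E := by push_cast; rfl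
  rw [h5]
  calc (q : ℝ) ≤ (((m₀ + 13) ^ 2 * (k + 1) ^ E : ℕ) : ℝ) := Nat.cast_le.2 h3
    _ = ((m₀ : ℝ) + 13) ^ 2 * ((k : ℝ) + 1) ^ E := h4
    _ ≤ ((m₀ : ℝ) + 13) ^ 2 * (42 * (1 + 1 / ε)) ^ E :=
        mul_le_mul_of_nonneg_left (pow_le_pow_left₀ (by positivity) hkle _) (by positivity)
    _ = _ := by rw [mul_pow, mul_assoc]

/-- For every `d ≥ 2` the property `P_d` of having Bradley-Terry dimension `d` is easily
`L₁`-testable: for every `ε > 0` there is a number `q`, bounded by a polynomial in `1 / ε`, such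
that for every `n` there is a one-sided `ε`-tester for `P_d` with at most `q` queries. -/
theorem result : ∀ d : ℕ, 2 ≤ d → ∃ C e : ℕ, ∀ ε : ℝ, 0 < ε →
    ∃ q : ℕ, (q : ℝ) ≤ C * (1 + 1 / ε) ^ e ∧
      ∀ n : ℕ, ∃ T : Tester n q, T.OneSided d ε := by
  classical
  intro d hd
  by_cases hE : ∃ (m : ℕ) (p : Fin m → Fin m → ℝ), Rep d p ∧ ¬ Rep (d - 1) p
  swap
  · -- the property is empty
    refine ⟨0, 0, fun ε hε => ⟨0, by simp, fun n => ⟨rejectAll n 0, fun K w hw => ⟨?_, ?_⟩⟩⟩⟩
    · intro hP
      exact absurd ⟨n, mat K w, hP.2⟩ hE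
    · intro _
      unfold Tester.acceptProb rejectAll
      simp
  obtain ⟨m₀, p₀, ⟨a₀, ha₀, hp₀⟩, hrep⟩ := hE
  refine ⟨(m₀ + 13) ^ 2 * 42 ^ (4 * d + 16), 4 * d + 16, fun ε hε => ?_⟩
  set k : ℕ := ⌈42 / ε⌉₊ + 5 with hk
  have hk5 : 5 ≤ k := by omega
  have hk42 : 42 / ε ≤ k := by
    rw [hk]
    push_cast
    have := Nat.le_ceil (42 / ε)
    linarith
  have hkle : (k : ℝ) + 1 ≤ 42 * (1 + 1 / ε) := by
    rw [hk]
    push_cast
    have h1 := Nat.ceil_lt_add_one (show 0 ≤ 42 / ε by positivity)
    have h2 : 42 * (1 + 1 / ε) = 42 + 42 / ε := by ring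
    rw [h2]
    linarith
  have hM01 : 1 ≤ M0 d k := by
    unfold M0
    exact Nat.mul_pos (by positivity) (by omega)
  set n₀ : ℕ := k * M0 d k * (m₀ + 1) with hn₀
  set N : ℕ := 2 * k * NN d k with hN
  refine ⟨(n₀ + N) ^ 2, ?_, ?_⟩
  · exact queries_le hkle
  intro n
  by_cases hn : n < n₀
  · refine ⟨queryAll n _ d ?_, queryAll_oneSided _ hε⟩
    exact Nat.pow_le_pow_left (by omega) 2
  · push Not at hn
    have hkM : 1 ≤ k * M0 d k := Nat.mul_pos (by omega) hM01
    have hn1 : 1 ≤ n := by
      refine le_trans ?_ hn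
      exact Nat.mul_pos hkM (by omega)
    have hnM : k * M0 d k ≤ n := le_trans (Nat.le_mul_of_pos_right _ (by omega)) hn
    have hnk : k * (m₀ + 1) ≤ n := by
      refine le_trans ?_ hn
      exact Nat.mul_le_mul_right _ (Nat.le_mul_of_pos_right _ hM01)
    refine ⟨sampleTester n _ d N hn1 (Nat.pow_le_pow_left (by omega) 2), fun K w hw => ⟨?_, ?_⟩⟩
    · intro hP
      rw [sampleTester_prob]
      obtain ⟨-, ⟨a, ha, h⟩, -⟩ := hP
      have h1 : ∀ x : Fin N → Fin n, Good d (mat K w) (Set.range x) :=
        fun x => ⟨a, ha, fun y _ z _ hyz => h y z hyz⟩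
      simp only [h1, if_true]
      exact Ex_const (sum_unif hn1) 1
    · intro hfar
      by_contra hcon
      push Not at hcon
      rw [sampleTester_prob] at hcon
      obtain ⟨a, ha, hsum⟩ := sample_theorem (P := full K w) (by omega) hk5 hnM (full_mat hw) (by
        refine lt_of_lt_of_le hcon (le_of_eq ?_)
        congr 1
        funext x
        simp only [good_full])
      exact not_far hd hε hk42 hnk (by omega) ha₀ hp₀ hrep hw ha hsum hfar

end Pool.Agent.Results.MP_4530c2_lc.EasilyTestable
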